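import Pool.Agent.H.MP_df1f63_gt.C

set_option autoImplicit false

namespace Pool.Agent.Results.MP_df1f63_gt.Yes

/-- Hilbert distance: with `I = x - s(y - x)` and `J = x + t(y - x)` the two ends of the chord,
`d = (1/2) log (|Iy| |xJ| / (|Ix| |yJ|)) = (1/2) log ((1 + s) t / (s (t - 1)))`; it is `0` if `x = y`. -/
noncomputable def hilbertDist (K : Set (ℝ × ℝ)) (x y : ℝ × ℝ) : ℝ :=
  (1 / 2) * Real.log
    (((1 + sSup {s : ℝ | 0 ≤ s ∧ x - s • (y - x) ∈ K}) *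
        sSup {t : ℝ | 0 ≤ t ∧ x + t • (y - x) ∈ K}) /
      (sSup {s : ℝ | 0 ≤ s ∧ x - s • (y - x) ∈ K} *
        (sSup {t : ℝ | 0 ≤ t ∧ x + t • (y - x) ∈ K} - 1)))

/-- `m` is a reverse altitude from `a` in the triangle `a b c`: a line through `a` meeting the line
`b c` at a point `F` of `K` that is a nearest point of `m ∩ K` to every point of `bc ∩ K`. -/
def RevAlt (K : Set (ℝ × ℝ)) (a b c : ℝ × ℝ) (m : AffineSubspace ℝ (ℝ × ℝ)) : Prop :=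
  Module.finrank ℝ m.direction = 1 ∧ a ∈ m ∧ ∃ F ∈ K, F ∈ m ∧ F ∈ affineSpan ℝ {b, c} ∧
    ∀ x ∈ affineSpan ℝ {b, c}, x ∈ K → ∀ z ∈ m, z ∈ K → hilbertDist K x F ≤ hilbertDist K x z

/-- three lines are concurrent in the plane or all parallel -/
def Pencil (l m n : AffineSubspace ℝ (ℝ × ℝ)) : Prop :=
  (∃ p, p ∈ l ∧ p ∈ m ∧ p ∈ n) ∨ (l.direction = m.direction ∧ m.direction = n.direction)

theorem result (K : Set (ℝ × ℝ)) (hopen : IsOpen K) (hconv : Convex ℝ K)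
    (hbdd : Bornology.IsBounded K) (hne : K.Nonempty)
    (H : ∀ a b c : ℝ × ℝ, a ∈ K → b ∈ K → c ∈ K → ¬ Collinear ℝ {a, b, c} →
      (∃ l m n, RevAlt K a b c l ∧ RevAlt K b c a m ∧ RevAlt K c a b n ∧ Pencil l m n) ∨
      (∀ l m n, RevAlt K a b c l → RevAlt K b c a m → RevAlt K c a b n → Pencil l m n)) :
    ∃ f : (ℝ × ℝ) ≃ᵃ[ℝ] (ℝ × ℝ), K = f '' {p : ℝ × ℝ | p.1 ^ 2 + p.2 ^ 2 < 1} :=
  Pool.Agent.H.MP_df1f63_gt.final hopen hconv hbdd hne H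

end Pool.Agent.Results.MP_df1f63_gt.Yes
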